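import Mathlib
import Pool.Agent.W744.NG.Final
import Pool.Agent.W744.NG.Baire
import Pool.Agent.W744.NG.Comp
import Pool.Agent.W744.NG.Ind
import Pool.Agent.W744.NG.YSt
import Pool.Agent.W782.NGReal
import Pool.Agent.W782.NGVert
import Pool.Agent.V11246.MMh

set_option autoImplicit false
set_option linter.unusedSectionVars false

/-!
# MP_7561b1_an, Q2 (positive answer)

If `T` is multiply mixing, then the generic extension of `T` is multiply mixing.
-/

open MeasureTheory Set Filter Topology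
open scoped ENNReal symmDiff

namespace Pool.Agent.Results.MP_7561b1_an.MultipleMixingLifts

/-- Invertible bimeasurable `m`-preserving maps of `Z` onto itself (representatives of the elements
of `Aut(Z, m)`). -/
def PreAut {Z : Type*} [MeasurableSpace Z] (m : Measure Z) : Type _ :=
  {S : Z ≃ᵐ Z // MeasurePreserving S m m}

/-- `S` is multiply mixing (mixing of all orders): for all `k ≥ 2` and all measurable `A 0, …, A k`,
`m (⋂ i, S^{-n i} (A i))` tends to `∏ i, m (A i)` as `n 0 = 0` and all the gaps `n (i+1) - n i` tend to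
infinity. -/
def MultiplyMixing {Z : Type*} [MeasurableSpace Z] (m : Measure Z) (S : Z → Z) : Prop :=
  ∀ k : ℕ, 2 ≤ k → ∀ A : Fin (k + 1) → Set Z, (∀ i, MeasurableSet (A i)) → ∀ ε : ℝ, 0 < ε →
    ∃ N : ℕ, ∀ n : Fin (k + 1) → ℕ, n 0 = 0 → (∀ i : Fin k, n i.castSucc + N ≤ n i.succ) →
      |m.real (⋂ i, S^[n i] ⁻¹' (A i)) - ∏ i, m.real (A i)| < ε

/-- Measurable cocycles `α : X → Aut(Y, ν)` (representatives): jointly measurable families of
automorphisms of `(Y, ν)`. -/
def PreCocycle (X : Type*) {Y : Type*} [MeasurableSpace X] [MeasurableSpace Y] (ν : Measure Y) : Type _ :=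
  {α : X → PreAut ν // Measurable (fun z : X × Y => (α z.1).1 z.2)}

section
variable {X Y : Type*} [MeasurableSpace X] [MeasurableSpace Y]

/-- Equality of cocycles modulo null sets. -/
def cocEq (μ : Measure X) (ν : Measure Y) : Setoid (PreCocycle X ν) where
  r := fun α β => ∀ᵐ x ∂μ, ∀ᵐ y ∂ν, (α.1 x).1 y = (β.1 x).1 y
  iseqv :=
    { refl := fun α => Eventually.of_forall fun x => Eventually.of_forall fun y => rfl
      symm := fun {α β} h => h.mono fun x hx => hx.mono fun y hy => hy.symm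
      trans := fun {α β γ} h h' => by
        filter_upwards [h, h'] with x h1 h2
        filter_upwards [h1, h2] with y h3 h4
        exact h3.trans h4 }

/-- The space of cocycles modulo null sets. -/
def Cocycle (μ : Measure X) (ν : Measure Y) : Type _ := Quotient (cocEq μ ν)

/-- The class of a representative. -/
def cls (μ : Measure X) {ν : Measure Y} (α : PreCocycle X ν) : Cocycle μ ν := Quotient.mk (cocEq μ ν) α

/-- The classes of the cocycles `β` with `μ {x : ν (α(x)B Δ β(x)B) ≥ ε} < ε`. -/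
def nbd (μ : Measure X) {ν : Measure Y} (α : PreCocycle X ν) (B : Set Y) (ε : ℝ) : Set (Cocycle μ ν) :=
  {q | ∃ β : PreCocycle X ν, cls μ β = q ∧
    μ.real {x | ε ≤ ν.real (((α.1 x).1 '' B) ∆ ((β.1 x).1 '' B))} < ε}

/-- Convergence in measure of cocycles, `Aut(Y, ν)` carrying the weak topology. -/
instance inMeasure (μ : Measure X) (ν : Measure Y) : TopologicalSpace (Cocycle μ ν) :=
  TopologicalSpace.generateFrom
    {U | ∃ (α : PreCocycle X ν) (B : Set Y) (ε : ℝ), MeasurableSet B ∧ 0 < ε ∧ U = nbd μ α B ε}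

/-- The extension `T_α(x, y) = (Tx, α(x)y)`. -/
def ext {μ : Measure X} {ν : Measure Y} (T : PreAut μ) (α : PreCocycle X ν) (z : X × Y) : X × Y :=
  (T.1 z.1, (α.1 z.1).1 z.2)

/-- The set of (classes of) cocycles `α` for which `T_α` is multiply mixing. -/
def MixingCocycles {μ : Measure X} (T : PreAut μ) (ν : Measure Y) : Set (Cocycle μ ν) :=
  {q | ∃ α : PreCocycle X ν, cls μ α = q ∧ MultiplyMixing (μ.prod ν) (ext T α)}

end

/-! ### proof -/

open Pool.Agent.W744.NG Pool.Agent.W744.NG.Final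

theorem mmix_iff {Z : Type*} [MeasurableSpace Z] (m : Measure Z) (S : Z → Z) :
    MultiplyMixing m S ↔ Pool.Agent.V11246.MM.MMix m S := by
  constructor
  · intro h k hk A hA ε hε
    obtain ⟨N, hN⟩ := h k hk A hA ε hε
    exact ⟨N, fun n hn => hN n hn.1 hn.2⟩
  · intro h k hk A hA ε hε
    obtain ⟨N, hN⟩ := h k hk A hA ε hε
    exact ⟨N, fun n h0 hn => hN n ⟨h0, hn⟩⟩

section
variable {X Y : Type} [MeasurableSpace X] [StandardBorelSpace X] [MeasurableSpace Y] [StandardBorelSpace Y]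
  {μ : Measure X} {ν : Measure Y} [IsProbabilityMeasure μ] [IsProbabilityMeasure ν]

theorem real_img (S S' : AU ν) (h : ∀ᵐ y ∂ν, S.1 y = S'.1 y) (A B : Set Y) :
    ν.real (A ∆ (S.1 '' B)) = ν.real (A ∆ (S'.1 '' B)) := by
  apply measureReal_congr
  exact (ae_eq_refl A).symmDiff (Pool.H359R3.MX.img_ae ν S.1 S'.1 S.2 h B)

theorem mem_nbd (α β : PreCocycle X ν) (B : Set Y) (ε : ℝ) :
    cls μ β ∈ nbd μ α B ε ↔ (β : Coc X ν) ∈ NB μ (α : Coc X ν) B ε := by
  constructor
  · rintro ⟨β', h1, h2⟩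
    have h3 : ∀ᵐ x ∂μ, ∀ᵐ y ∂ν, (β'.1 x).1 y = (β.1 x).1 y := Quotient.exact h1
    show μ.real {x | ε ≤ ν.real (((α.1 x).1 '' B) ∆ ((β.1 x).1 '' B))} < ε
    refine lt_of_le_of_lt (le_of_eq ?_) h2
    apply measureReal_congr
    filter_upwards [h3] with x hx
    apply propext
    have h4 := real_img (β'.1 x) (β.1 x) hx ((α.1 x).1 '' B) B
    show ε ≤ ν.real (((α.1 x).1 '' B) ∆ ((β.1 x).1 '' B)) ↔ ε ≤ ν.real (((α.1 x).1 '' B) ∆ ((β'.1 x).1 '' B))
    rw [← h4]
  · intro h
    exact ⟨β, rfl, h⟩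

/-- the class map on the cocycles of the library -/
def clsC (μ : Measure X) (ν : Measure Y) (Φ : Coc X ν) : Cocycle μ ν := cls μ Φ

theorem cls_surj : Function.Surjective (clsC μ ν) := Quotient.mk_surjective

theorem ind : @IsInducing (Coc X ν) (Cocycle μ ν) (tC μ ν) _ (clsC μ ν) := by
  refine @IsInducing.mk _ _ (tC μ ν) _ _ ?_
  show tC μ ν = TopologicalSpace.induced (clsC μ ν) (TopologicalSpace.generateFrom _)
  rw [induced_generateFrom_eq]
  refine congrArg TopologicalSpace.generateFrom ?_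
  ext U
  constructor
  · rintro ⟨α, B, ε, hB, hε, rfl⟩
    refine ⟨nbd μ α B ε, ⟨α, B, ε, hB, hε, rfl⟩, ?_⟩
    ext β
    exact mem_nbd α β B ε
  · rintro ⟨_, ⟨α, B, ε, hB, hε, rfl⟩, rfl⟩
    refine ⟨α, B, ε, hB, hε, ?_⟩
    ext β
    exact mem_nbd α β B ε

theorem pre_mm (T : AU μ) : clsC μ ν ⁻¹' (MixingCocycles (T : PreAut μ) ν) =
    {Φ : Coc X ν | Pool.Agent.V11246.MM.MMix (μ.prod ν) (Pool.Agent.W744.NG.sk T.1 Φ)} := by
  ext Φ
  constructor
  · rintro ⟨α, h1, h2⟩
    have h3 : ∀ᵐ x ∂μ, ∀ᵐ y ∂ν, (α.1 x).1 y = (Φ.1 x).1 y := Quotient.exact h1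
    have h4 : ∀ᵐ z ∂(μ.prod ν), Pool.Agent.W744.NG.sk T.1 (α : Coc X ν) z =
        Pool.Agent.W744.NG.sk T.1 Φ z := by
      have h5 : MeasurableSet {z : X × Y | (α.1 z.1).1 z.2 = (Φ.1 z.1).1 z.2} :=
        measurableSet_eq_fun α.2 Φ.2
      have h6 : ∀ᵐ z ∂(μ.prod ν), (α.1 z.1).1 z.2 = (Φ.1 z.1).1 z.2 := by
        rw [Measure.ae_prod_iff_ae_ae h5]
        exact h3
      filter_upwards [h6] with z hz
      unfold Pool.Agent.W744.NG.sk
      exact Prod.ext rfl hz
    exact Pool.Agent.V11246.MM.mmix_congr (sk_mp T (α : Coc X ν)) h4 ((mmix_iff _ _).1 h2)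
  · intro h
    exact ⟨Φ, rfl, (mmix_iff _ _).2 h⟩

end

/-- an inducing surjection transfers the Baire property -/
theorem baire_of {E F : Type*} [TopologicalSpace E] [TopologicalSpace F] [BaireSpace E] (π : E → F)
    (hπ : IsInducing π) (hs : Function.Surjective π) : BaireSpace F := by
  refine ⟨fun f ho hd => ?_⟩
  have hopen : IsOpenMap π := by
    intro U hU
    obtain ⟨V, hV, rfl⟩ := hπ.isOpen_iff.1 hU
    rw [image_preimage_eq V hs]
    exact hV
  have h1 : Dense (⋂ n, π ⁻¹' f n) :=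
    dense_iInter_of_isOpen (fun n => (ho n).preimage hπ.continuous) (fun n => (hd n).preimage hopen)
  have h2 : Dense (π '' ⋂ n, π ⁻¹' f n) := hs.denseRange.dense_image hπ.continuous h1
  refine h2.mono ?_
  rintro _ ⟨x, hx, rfl⟩
  rw [mem_iInter] at hx ⊢
  exact hx

/-- **Theorem.** Let `T` be a multiply mixing automorphism of a nonatomic standard probability space
`(X, μ)`, and let `(Y, ν)` be a nonatomic standard probability space. Then the generic extension of `T` is
multiply mixing: the set of cocycles `α` (modulo null sets, with convergence in measure) for which `T_α` is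
multiply mixing is comeagre, and contains a dense `G_δ` set. -/
theorem result {X Y : Type} [MeasurableSpace X] [StandardBorelSpace X] [MeasurableSpace Y]
    [StandardBorelSpace Y] (μ : Measure X) (ν : Measure Y) [IsProbabilityMeasure μ]
    [IsProbabilityMeasure ν] [NullSingletonClass μ] [NullSingletonClass ν] (T : PreAut μ)
    (hT : MultiplyMixing μ T.1) :
    MixingCocycles T ν ∈ residual (Cocycle μ ν) ∧
      ∃ G : Set (Cocycle μ ν), IsGδ G ∧ Dense G ∧ G ⊆ MixingCocycles T ν := by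
  obtain ⟨D'⟩ := YSt.main X μ
  obtain ⟨D⟩ := YSt.main Y ν
  have h1 := Pool.Agent.V11246.MM.generic (T : AU μ) ((mmix_iff _ _).1 hT) D' D
  have h2 : MixingCocycles T ν ∈ residual (Cocycle μ ν) := by
    let _ : TopologicalSpace (Coc X ν) := tC μ ν
    rw [res_iff (clsC μ ν) ind cls_surj, pre_mm]
    exact h1
  refine ⟨h2, ?_⟩
  have hB : BaireSpace (Cocycle μ ν) := by
    let _ : TopologicalSpace (Coc X ν) := tC μ ν
    have hB0 : BaireSpace (Coc X ν) :=
      Bair.main Ind.main (Pool.Agent.W782.NGVert.main Pool.Agent.W782.NGReal.main) Compl.main X Y μ ν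
    exact baire_of (clsC μ ν) ind cls_surj
  obtain ⟨G, hG1, hG2, hG3⟩ := mem_residual.1 h2
  exact ⟨G, hG2, hG3, hG1⟩

end Pool.Agent.Results.MP_7561b1_an.MultipleMixingLifts
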